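import Mathlib
import Pool.Agent.Lib.MP_137890_nt.Ex.E
import Pool.Agent.Lib.MP_137890_nt.Ex.F

set_option autoImplicit false

open Filter Topology

namespace Pool.Agent.Results.MP_137890_nt.ExactValue

/-- `n` is a sum of exactly `k` elements of `A`, repetitions allowed. -/
def IsSumOf (A : Set ℕ) (k n : ℕ) : Prop :=
  ∃ a : Fin k → ℕ, (∀ i, a i ∈ A) ∧ ∑ i, a i = n

/-- Every large `n` is a sum of exactly `j` elements of `A` for some `j ≤ r`. -/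
def IsBasisOfOrder (A : Set ℕ) (r : ℕ) : Prop :=
  ∃ N : ℕ, ∀ n : ℕ, N ≤ n → ∃ j : ℕ, j ≤ r ∧ IsSumOf A j n

/-- `k` is the least integer such that every large `n` is a sum of exactly `k` elements of `A`. -/
def HasExactOrder (A : Set ℕ) (k : ℕ) : Prop :=
  IsLeast {l : ℕ | ∃ N : ℕ, ∀ n : ℕ, N ≤ n → IsSumOf A l n} k

section Proof

open Pointwise Pool.Agent.Lib.MP_137890_nt

lemma isSumOf_iff (A : Set ℕ) (k n : ℕ) : IsSumOf A k n ↔ n ∈ k • A :=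
  Set.mem_nsmul_iff_sum.symm

lemma isSumOf_iff_int (A : Set ℕ) (k n : ℕ) :
    IsSumOf A k n ↔ (n : ℤ) ∈ k • ((fun a : ℕ => (a : ℤ)) '' A) := by
  rw [Set.mem_nsmul_iff_sum]
  constructor
  · rintro ⟨a, ha, rfl⟩
    exact ⟨fun i => a i, fun i => ⟨a i, ha i, rfl⟩, by push_cast; rfl⟩
  · rintro ⟨f, hf, hs⟩
    choose a ha hfa using hf
    refine ⟨a, ha, ?_⟩
    have : ((∑ i, a i : ℕ) : ℤ) = n := by
      push_cast
      rw [← hs]
      exact Finset.sum_congr rfl fun i _ => hfa i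
    exact_mod_cast this

lemma upper : ∃ r0 : ℕ, ∀ r : ℕ, r0 ≤ r →
    ∀ (A : Set ℕ) (k : ℕ), IsBasisOfOrder A r → HasExactOrder A k → k ≤ r * (r + 4) / 3 := by
  obtain ⟨r0, h⟩ := upper_exact
  refine ⟨r0, fun r hr A k ⟨N, hN⟩ ⟨⟨N', hN'⟩, hk⟩ => ?_⟩
  obtain ⟨a0, ha0⟩ : ∃ a0, a0 ∈ A := by
    obtain ⟨j, -, a, ha, hs⟩ := hN (N + 1) (Nat.le_succ N)
    rcases j with _ | j
    · simp at hs
    · exact ⟨a 0, ha 0⟩
  have S : Setup ((fun a : ℕ => (a : ℤ)) '' A) r a0 N := by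
    refine ⟨⟨a0, ha0, rfl⟩, ?_, ?_, ?_⟩
    · rintro _ ⟨a, -, rfl⟩
      exact Int.natCast_nonneg a
    · intro n hn
      obtain ⟨m, rfl⟩ := Int.eq_ofNat_of_zero_le ((Int.natCast_nonneg N).trans hn)
      obtain ⟨j, hj, hs⟩ := hN m (by exact_mod_cast hn)
      exact ⟨j, hj, (isSumOf_iff_int A j m).mp hs⟩
    · exact ⟨k, (N' + 1 : ℕ), (isSumOf_iff_int A k _).mp (hN' _ (Nat.le_succ _)), N',
        (isSumOf_iff_int A k _).mp (hN' _ le_rfl), by push_cast; ring⟩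
  obtain ⟨K, hK, N1, hcov⟩ := h r hr _ _ _ S
  have : k ≤ K := hk ⟨N1.toNat, fun n hn => (isSumOf_iff_int A K n).mpr (hcov n (by omega))⟩
  omega

lemma lower (r : ℕ) (hr : 7 ≤ r) :
    ∃ A : Set ℕ, IsBasisOfOrder A r ∧ HasExactOrder A (r * (r + 4) / 3) := by
  obtain ⟨x, N, hN⟩ := twoRes_sharp r hr
  have hg : 2 ≤ r * (r + 4) / 3 + 1 := by
    have : 7 * 11 ≤ r * (r + 4) := Nat.mul_le_mul hr (by omega)
    omega
  refine ⟨twoRes (r * (r + 4) / 3 + 1) x, ⟨N, fun n hn => ?_⟩, ?_, ?_⟩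
  · obtain ⟨j, hj, h⟩ := hN n hn
    exact ⟨j, hj, (isSumOf_iff _ _ _).mpr h⟩
  · obtain ⟨N, hN⟩ := twoRes_cofinite (x := x) hg
    exact ⟨N, fun n hn => (isSumOf_iff _ _ _).mpr (hN n hn)⟩
  · rintro l ⟨N, hN⟩
    by_contra hc
    exact twoRes_not_cofinite (g := r * (r + 4) / 3 + 1) (x := x) (k := l) (by omega)
      ⟨N, fun n hn => (isSumOf_iff _ _ _).mp (hN n hn)⟩

lemma bdd (r : ℕ) : BddAbove {k : ℕ | ∃ A : Set ℕ, IsBasisOfOrder A r ∧ HasExactOrder A k} := by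
  obtain ⟨r0, h⟩ := upper
  refine ⟨max r r0 * (max r r0 + 4) / 3, ?_⟩
  rintro k ⟨A, ⟨N, hN⟩, hk⟩
  exact h (max r r0) (le_max_right _ _) A k ⟨N, fun n hn => by
    obtain ⟨j, hj, hs⟩ := hN n hn
    exact ⟨j, hj.trans (le_max_left _ _), hs⟩⟩ hk

lemma limit : Tendsto (fun r : ℕ => ((r * (r + 4) / 3 : ℕ) : ℝ) / (r : ℝ) ^ 2) atTop (𝓝 (1 / 3)) := by
  have h0 : Tendsto (fun r : ℕ => 1 / 3 + 2 * ((r : ℝ))⁻¹) atTop (𝓝 (1 / 3)) := by
    have := ((tendsto_inv_atTop_nhds_zero_nat (𝕜 := ℝ)).const_mul 2).const_add (1 / 3)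
    rwa [mul_zero, add_zero] at this
  refine tendsto_of_tendsto_of_tendsto_of_le_of_le' tendsto_const_nhds h0 ?_ ?_
  · filter_upwards [eventually_ge_atTop 1] with r hr
    have hr' : (1 : ℝ) ≤ r := by exact_mod_cast hr
    have h1 : r * r ≤ 3 * (r * (r + 4) / 3) := by
      have : r * (r + 4) = r * r + 4 * r := by ring
      omega
    have h2 : (r : ℝ) * r ≤ 3 * ((r * (r + 4) / 3 : ℕ) : ℝ) := by exact_mod_cast h1
    rw [le_div_iff₀ (by positivity)]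
    nlinarith
  · filter_upwards [eventually_ge_atTop 1] with r hr
    have hr' : (1 : ℝ) ≤ r := by exact_mod_cast hr
    have h1 : 3 * (r * (r + 4) / 3) ≤ r * (r + 4) := Nat.mul_div_le _ _
    have h2 : 3 * ((r * (r + 4) / 3 : ℕ) : ℝ) ≤ (r : ℝ) * (r + 4) := by exact_mod_cast h1
    rw [div_le_iff₀ (by positivity)]
    have : (1 / 3 + 2 * (r : ℝ)⁻¹) * (r : ℝ) ^ 2 = (r : ℝ) ^ 2 / 3 + 2 * r := by field_simp
    rw [this]
    nlinarith

lemma nonempty (r : ℕ) (hr : 1 ≤ r) :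
    {k : ℕ | ∃ A : Set ℕ, IsBasisOfOrder A r ∧ HasExactOrder A k}.Nonempty := by
  have h1 : ∀ n, IsSumOf Set.univ 1 n := fun n => ⟨fun _ => n, fun _ => trivial, by simp⟩
  refine ⟨1, Set.univ, ⟨0, fun n _ => ⟨1, hr, h1 n⟩⟩, ⟨0, fun n _ => h1 n⟩, ?_⟩
  rintro l ⟨N, hN⟩
  obtain ⟨a, -, hs⟩ := hN (N + 1) (Nat.le_succ N)
  rcases l with _ | l
  · simp at hs
  · omega

end Proof

/-- The maximal exact order `h r` of a basis of order `r` exists, equals the integer part of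
`r (r + 4) / 3` for all large `r`, and so `h r / r ^ 2` tends to `1 / 3`. -/
theorem result : ∃ h : ℕ → ℕ,
    (∀ r : ℕ, 2 ≤ r →
      IsGreatest {k : ℕ | ∃ A : Set ℕ, IsBasisOfOrder A r ∧ HasExactOrder A k} (h r)) ∧
    (∃ r0 : ℕ, ∀ r : ℕ, r0 ≤ r → h r = r * (r + 4) / 3) ∧
    Tendsto (fun r : ℕ => (h r : ℝ) / (r : ℝ) ^ 2) atTop (𝓝 (1 / 3)) := by
  have hg : ∀ r : ℕ, 1 ≤ r →
      IsGreatest {k : ℕ | ∃ A : Set ℕ, IsBasisOfOrder A r ∧ HasExactOrder A k}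
        (sSup {k : ℕ | ∃ A : Set ℕ, IsBasisOfOrder A r ∧ HasExactOrder A k}) :=
    fun r hr => ⟨Nat.sSup_mem (nonempty r hr) (bdd r), fun k hk => le_csSup (bdd r) hk⟩
  obtain ⟨r0, h0⟩ := upper
  have he : ∀ r : ℕ, max r0 7 ≤ r →
      sSup {k : ℕ | ∃ A : Set ℕ, IsBasisOfOrder A r ∧ HasExactOrder A k} = r * (r + 4) / 3 := by
    intro r hr
    have h7 : 7 ≤ r := (le_max_right _ _).trans hr
    obtain ⟨A, hA, hk⟩ := (hg r (by omega)).1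
    exact le_antisymm (h0 r ((le_max_left _ _).trans hr) A _ hA hk)
      ((hg r (by omega)).2 (lower r h7))
  refine ⟨fun r => sSup {k : ℕ | ∃ A : Set ℕ, IsBasisOfOrder A r ∧ HasExactOrder A k},
    fun r hr => hg r (by omega), ⟨max r0 7, he⟩, limit.congr' ?_⟩
  filter_upwards [eventually_ge_atTop (max r0 7)] with r hr
  rw [he r hr]

end Pool.Agent.Results.MP_137890_nt.ExactValue
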